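import Pool.Agent.Y489.EN.Def2

/-!
# The Courant-Lebesgue lemma, ring form (S_CLR): the proof of S_CL by helper941, adapted
-/

set_option autoImplicit false

namespace Pool.Agent.Y489.EN.R

open Filter Topology MeasureTheory Metric Set
open scoped ENNReal Real
open Pool.Agent.Y320.CM (Sph)
open Pool.Agent.Y489.EN (IsMetric S_LINE S_CLR)

/-- Cauchy-Schwarz -/
lemma cs (g : ℝ → ℝ≥0∞) (hg : Measurable g) :
    (∫⁻ θ in Icc (-π) π, g θ) ^ 2 ≤
      ENNReal.ofReal (2 * π) * ∫⁻ θ in Icc (-π) π, g θ ^ 2 := by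
  have h := ENNReal.lintegral_mul_le_Lp_mul_Lq (volume.restrict (Icc (-π) π))
    (Real.HolderConjugate.two_two) (f := fun _ => (1 : ℝ≥0∞)) (g := g) aemeasurable_const hg.aemeasurable
  have e1 : ∫⁻ a in Icc (-π) π, ((fun _ => (1 : ℝ≥0∞)) * g : ℝ → ℝ≥0∞) a =
      ∫⁻ θ in Icc (-π) π, g θ := by
    refine lintegral_congr fun θ => ?_
    show (1 : ℝ≥0∞) * g θ = g θ
    exact one_mul _
  have e2 : ∫⁻ _ in Icc (-π) π, (1 : ℝ≥0∞) ^ (2 : ℝ) = ENNReal.ofReal (2 * π) := by
    simp only [ENNReal.one_rpow, lintegral_const, one_mul, Measure.restrict_apply MeasurableSet.univ,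
      univ_inter, Real.volume_Icc]
    congr 1
    ring
  have e3 : ∫⁻ θ in Icc (-π) π, g θ ^ (2 : ℝ) = ∫⁻ θ in Icc (-π) π, g θ ^ 2 := by
    refine lintegral_congr fun θ => ?_
    rw [← ENNReal.rpow_natCast]
    norm_num
  rw [e1, e2, e3] at h
  have h2 := pow_le_pow_left' h 2
  refine h2.trans (le_of_eq ?_)
  rw [mul_pow, ← ENNReal.rpow_natCast, ← ENNReal.rpow_natCast, ← ENNReal.rpow_mul,
    ← ENNReal.rpow_mul]
  norm_num

/-- the circle is short -/
lemma arc (hL : S_LINE) {ϱ : Sph → Sph → ℝ} (hϱ : IsMetric ϱ) {F : ℂ → Sph}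
    (hF : ContinuousOn F (ball 0 1)) {u : ℂ → ℝ≥0∞} (hu : Measurable u)
    (hFu : ∀ z ∈ ball (0 : ℂ) 1, ∀ w ∈ ball (0 : ℂ) 1,
      ENNReal.ofReal (ϱ (F z) (F w)) ≤ ENNReal.ofReal (dist z w) * (u z + u w))
    {A : ℂ} {r ρ : ℝ} (hr : 0 < r) (hrρ : r < ρ) (hball : ball A ρ ⊆ ball 0 1) (a b : ℝ)
    (ha : -π ≤ a) (hb : b ≤ π) (hab : a < b) :
    ENNReal.ofReal (ϱ (F (circleMap A r a)) (F (circleMap A r b))) ≤
      20 * (ENNReal.ofReal r * ∫⁻ θ in Icc (-π) π, u (circleMap A r θ)) := by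
  have hmem : ∀ θ, circleMap A r θ ∈ ball (0:ℂ) 1 := by
    intro θ
    apply hball
    have := circleMap_mem_sphere A hr.le θ
    rw [mem_sphere] at this
    rw [mem_ball, this]
    exact hrρ
  have hum : Measurable fun θ => u (circleMap A r θ) :=
    hu.comp (continuous_circleMap A r).measurable
  have h1 := hL ϱ hϱ (fun θ => F (circleMap A r θ))
    (fun θ => ENNReal.ofReal r * u (circleMap A r θ)) a b hab
    (hum.const_mul _)
    (hF.comp (continuous_circleMap A r).continuousOn fun θ _ => hmem θ) (by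
      intro s _ t _
      refine (hFu _ (hmem s) _ (hmem t)).trans ?_
      have h2 : dist (circleMap A r s) (circleMap A r t) ≤ r * |s - t| := by
        have := (lipschitzWith_circleMap A r).dist_le_mul s t
        rw [Real.dist_eq] at this
        refine this.trans (le_of_eq ?_)
        rw [Real.coe_nnabs, abs_of_pos hr]
      calc _ ≤ ENNReal.ofReal (r * |s - t|) * (u (circleMap A r s) + u (circleMap A r t)) := by
            gcongr
        _ = _ := by
            rw [ENNReal.ofReal_mul hr.le]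
            ring)
  refine h1.trans ?_
  rw [← lintegral_const_mul _ hum]
  gcongr

/-- the circle is short, points of the circle -/
lemma circ (hL : S_LINE) {ϱ : Sph → Sph → ℝ} (hϱ : IsMetric ϱ) {F : ℂ → Sph}
    (hF : ContinuousOn F (ball 0 1)) {u : ℂ → ℝ≥0∞} (hu : Measurable u)
    (hFu : ∀ z ∈ ball (0 : ℂ) 1, ∀ w ∈ ball (0 : ℂ) 1,
      ENNReal.ofReal (ϱ (F z) (F w)) ≤ ENNReal.ofReal (dist z w) * (u z + u w))
    {A : ℂ} {r ρ : ℝ} (hr : 0 < r) (hrρ : r < ρ) (hball : ball A ρ ⊆ ball 0 1) (z w : ℂ)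
    (hz : z ∈ sphere A r) (hw : w ∈ sphere A r) :
    ENNReal.ofReal (ϱ (F z) (F w)) ≤
      20 * (ENNReal.ofReal r * ∫⁻ θ in Icc (-π) π, u (circleMap A r θ)) := by
  have hp : ∀ z ∈ sphere A r, z = circleMap A r (Complex.arg (z - A)) := by
    intro z hz
    rw [mem_sphere, dist_eq_norm] at hz
    have := Complex.norm_mul_exp_arg_mul_I (z - A)
    rw [hz] at this
    rw [circleMap, this]
    ring
  have e1 := hp z hz
  have e2 := hp w hw
  rcases lt_trichotomy (Complex.arg (z - A)) (Complex.arg (w - A)) with h | h | h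
  · rw [e1, e2]
    have := arc hL hϱ hF hu hFu hr hrρ hball _ _ (Complex.neg_pi_lt_arg (z - A)).le
      (Complex.arg_le_pi (w - A)) h
    rwa [← e1, ← e2] at this ⊢
  · have : z = w := by rw [e1, e2, h]
    rw [this, hϱ.self, ENNReal.ofReal_zero]
    exact bot_le
  · have := arc hL hϱ hF hu hFu hr hrρ hball _ _ (Complex.neg_pi_lt_arg (w - A)).le
      (Complex.arg_le_pi (z - A)) h
    rw [← e1, ← e2] at this
    rwa [hϱ.symm]

lemma polar_eq (A : ℂ) (p : ℝ × ℝ) : A + Complex.polarCoord.symm p = circleMap A p.1 p.2 := by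
  rw [Complex.polarCoord_symm_apply, circleMap, Complex.exp_mul_I, Complex.ofReal_cos,
    Complex.ofReal_sin]

/-- integration over the circles -/
lemma polar {u : ℂ → ℝ≥0∞} (hu : Measurable u) (A : ℂ) (s ρ : ℝ) (hs : 0 < s) :
    ∫⁻ r in Ioo s ρ, ENNReal.ofReal r * ∫⁻ θ in Icc (-π) π, u (circleMap A r θ) ^ 2 ≤
      ∫⁻ z in ball A ρ \ closedBall A s, u z ^ 2 := by
  have hRm : MeasurableSet (ball A ρ \ closedBall A s) :=
    measurableSet_ball.diff measurableSet_closedBall
  set f : ℂ → ℝ≥0∞ := fun z => (ball A ρ \ closedBall A s).indicator (fun z => u z ^ 2) (A + z)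
    with hf
  have hfm : Measurable f :=
    ((hu.pow_const 2).indicator hRm).comp (measurable_const_add A)
  have h1 : ∫⁻ z, f z = ∫⁻ z in ball A ρ \ closedBall A s, u z ^ 2 := by
    rw [hf, lintegral_add_left_eq_self
      (fun z => (ball A ρ \ closedBall A s).indicator (fun z => u z ^ 2) z) A,
      lintegral_indicator hRm]
  have h2 := Complex.lintegral_comp_polarCoord_symm f
  have hpc : Measurable fun p : ℝ × ℝ => Complex.polarCoord.symm p := by
    have : (fun p : ℝ × ℝ => Complex.polarCoord.symm p) =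
        fun p : ℝ × ℝ => (p.1 : ℂ) * (Real.cos p.2 + Real.sin p.2 * Complex.I) :=
      funext fun p => Complex.polarCoord_symm_apply p
    rw [this]
    fun_prop
  have hgm : Measurable fun p : ℝ × ℝ => ENNReal.ofReal p.1 • f (Complex.polarCoord.symm p) := by
    simp only [smul_eq_mul]
    exact (ENNReal.measurable_ofReal.comp measurable_fst).mul (hfm.comp hpc)
  have h3 : ∫⁻ p in polarCoord.target, ENNReal.ofReal p.1 • f (Complex.polarCoord.symm p) =
      ∫⁻ r in Ioi (0:ℝ), ∫⁻ θ in Ioo (-π) π,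
        ENNReal.ofReal r • f (Complex.polarCoord.symm (r, θ)) := by
    rw [show polarCoord.target = Ioi (0:ℝ) ×ˢ Ioo (-π) π from rfl, Measure.volume_eq_prod,
      ← Measure.prod_restrict, lintegral_prod _ hgm.aemeasurable]
  rw [← h1, ← h2, h3]
  calc _ ≤ ∫⁻ r in Ioo s ρ, ∫⁻ θ in Ioo (-π) π,
        ENNReal.ofReal r • f (Complex.polarCoord.symm (r, θ)) := by
        refine setLIntegral_mono' measurableSet_Ioo fun r hr => ?_
        have hum : Measurable fun θ => u (circleMap A r θ) ^ 2 :=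
          (hu.comp (continuous_circleMap A r).measurable).pow_const 2
        rw [← lintegral_const_mul _ hum, setLIntegral_congr Ioo_ae_eq_Icc.symm]
        refine lintegral_mono fun θ => ?_
        rw [smul_eq_mul, hf]
        have hr0 : 0 < r := hs.trans hr.1
        have hm : circleMap A r θ ∈ ball A ρ \ closedBall A s := by
          have := circleMap_mem_sphere A hr0.le θ
          rw [mem_sphere] at this
          refine ⟨?_, ?_⟩
          · rw [mem_ball, this]
            exact hr.2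
          · rw [mem_closedBall, this]
            push Not
            exact hr.1
        show _ ≤ ENNReal.ofReal r * (ball A ρ \ closedBall A s).indicator
          (fun z => u z ^ 2) (A + Complex.polarCoord.symm (r, θ))
        rw [polar_eq, indicator_of_mem hm]
    _ ≤ _ := lintegral_mono_set fun r hr => hs.trans hr.1

theorem t_CLR : S_LINE → S_CLR := by
  intro hL ϱ hϱ C δ hC hδ F hF u hu hFu A s ρ hs hsρ hball hint hlog
  by_contra hcon
  push Not at hcon
  have hπ := Real.pi_pos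
  -- every circle carries energy
  have key : ∀ r ∈ Ioo s ρ, ENNReal.ofReal (δ ^ 2 * r⁻¹) ≤
      ENNReal.ofReal (800 * π) *
        (ENNReal.ofReal r * ∫⁻ θ in Icc (-π) π, u (circleMap A r θ) ^ 2) := by
    intro r hr
    have hr0 : 0 < r := hs.trans hr.1
    obtain ⟨z, hz, w, hw, hzw⟩ := hcon r hr.1 hr.2
    have h1 := circ hL hϱ hF hu hFu hr0 hr.2 hball z w hz hw
    have h2 : ENNReal.ofReal δ ≤
        20 * (ENNReal.ofReal r * ∫⁻ θ in Icc (-π) π, u (circleMap A r θ)) :=
      (ENNReal.ofReal_le_ofReal hzw).trans h1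
    have h3 := pow_le_pow_left' h2 2
    have h4 := cs (fun θ => u (circleMap A r θ))
      (hu.comp (continuous_circleMap A r).measurable)
    have h20 : (20 : ℝ≥0∞) = ENNReal.ofReal 20 := by norm_num
    have h5 : ENNReal.ofReal δ ^ 2 ≤ ENNReal.ofReal (800 * π * r ^ 2) *
        ∫⁻ θ in Icc (-π) π, u (circleMap A r θ) ^ 2 := by
      refine h3.trans ?_
      rw [mul_pow, mul_pow]
      calc _ ≤ 20 ^ 2 * (ENNReal.ofReal r ^ 2 * (ENNReal.ofReal (2 * π) *
            ∫⁻ θ in Icc (-π) π, u (circleMap A r θ) ^ 2)) := by gcongr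
        _ = _ := by
            rw [h20, ← ENNReal.ofReal_pow (by norm_num), ← ENNReal.ofReal_pow hr0.le, ← mul_assoc,
              ← mul_assoc, ← ENNReal.ofReal_mul (by norm_num), ← ENNReal.ofReal_mul (by positivity)]
            congr 2
            ring
    rw [ENNReal.ofReal_mul (by positivity), ENNReal.ofReal_pow hδ.le]
    calc ENNReal.ofReal δ ^ 2 * ENNReal.ofReal r⁻¹ ≤ (ENNReal.ofReal (800 * π * r ^ 2) *
        ∫⁻ θ in Icc (-π) π, u (circleMap A r θ) ^ 2) * ENNReal.ofReal r⁻¹ := by gcongr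
      _ = _ := by
          rw [mul_comm, ← mul_assoc, ← mul_assoc, ← ENNReal.ofReal_mul (by positivity),
            ← ENNReal.ofReal_mul (by positivity)]
          congr 2
          field_simp
  have h1 : ∫⁻ r in Ioo s ρ, ENNReal.ofReal (δ ^ 2 * r⁻¹) ≤
      ENNReal.ofReal (800 * π) * ENNReal.ofReal C := by
    calc _ ≤ ∫⁻ r in Ioo s ρ, ENNReal.ofReal (800 * π) *
          (ENNReal.ofReal r * ∫⁻ θ in Icc (-π) π, u (circleMap A r θ) ^ 2) :=
          setLIntegral_mono' measurableSet_Ioo key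
      _ = ENNReal.ofReal (800 * π) * ∫⁻ r in Ioo s ρ,
          ENNReal.ofReal r * ∫⁻ θ in Icc (-π) π, u (circleMap A r θ) ^ 2 :=
          lintegral_const_mul' _ _ ENNReal.ofReal_ne_top
      _ ≤ ENNReal.ofReal (800 * π) * ∫⁻ z in ball A ρ \ closedBall A s, u z ^ 2 := by
          gcongr
          exact polar hu A s ρ hs
      _ ≤ _ := by gcongr
  have h2 : ∫⁻ r in Ioo s ρ, ENNReal.ofReal (δ ^ 2 * r⁻¹) =
      ENNReal.ofReal (δ ^ 2 * Real.log (ρ / s)) := by
    have h3 : ∫ r in s..ρ, δ ^ 2 * r⁻¹ = δ ^ 2 * Real.log (ρ / s) := by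
      rw [intervalIntegral.integral_const_mul, integral_inv_of_pos hs (hs.trans hsρ)]
    have h4 : IntegrableOn (fun r => δ ^ 2 * r⁻¹) (Ioc s ρ) volume := by
      have : ContinuousOn (fun r : ℝ => δ ^ 2 * r⁻¹) (Icc s ρ) :=
        continuousOn_const.mul (continuousOn_inv₀.mono fun x hx => (hs.trans_le hx.1).ne')
      exact this.integrableOn_Icc.mono_set Ioc_subset_Icc_self
    rw [← h3, intervalIntegral.integral_of_le hsρ.le,
      ofReal_integral_eq_lintegral_ofReal h4 ?_, setLIntegral_congr Ioo_ae_eq_Ioc]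
    filter_upwards [ae_restrict_mem measurableSet_Ioc] with r hr
    have : 0 < r := hs.trans hr.1
    show 0 ≤ δ ^ 2 * r⁻¹
    positivity
  rw [h2, ← ENNReal.ofReal_mul (by positivity), ENNReal.ofReal_le_ofReal_iff (by positivity)] at h1
  have h3 : 800 * π * C ≤ 10000 * C := by
    have := Real.pi_lt_four
    nlinarith
  linarith

end Pool.Agent.Y489.EN.R
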