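import Pool.Agent.Y320.CM.Stm

/-!
# Project EN: hyperbolic groups with sphere boundary and bounded Dirichlet energy

Definitions and statements (`S_...`) of the jobs.  Everything is elementary.
-/

set_option autoImplicit false
open Filter Topology MeasureTheory Metric Set
open scoped ENNReal

namespace Pool.Agent.Y489.EN
open Pool.Agent.Y320.CM

/-- `ϱ` is a continuous metric on the sphere `Sph` (so it induces the topology of the sphere, by
compactness). -/
structure IsMetric (ϱ : Sph → Sph → ℝ) : Prop where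
  cont : Continuous fun q : Sph × Sph => ϱ q.1 q.2
  self : ∀ x, ϱ x x = 0
  pos : ∀ x y, x ≠ y → 0 < ϱ x y
  symm : ∀ x y, ϱ x y = ϱ y x
  tri : ∀ x y z, ϱ x z ≤ ϱ x y + ϱ y z

/-- The map `F` of the planar unit disc to the sphere with the metric `ϱ` is of the Sobolev class
`W^{1,2}` with Dirichlet energy at most `C`, in the form of Hajlasz: there is a measurable `u` with
`ϱ (F z) (F w) ≤ |z - w| (u z + u w)` and the integral of `u ^ 2` over the disc at most `C`. -/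
def EnergyLE (ϱ : Sph → Sph → ℝ) (C : ℝ) (F : ℂ → Sph) : Prop :=
  ∃ u : ℂ → ℝ≥0∞, Measurable u ∧
    (∀ z ∈ ball (0 : ℂ) 1, ∀ w ∈ ball (0 : ℂ) 1,
      ENNReal.ofReal (ϱ (F z) (F w)) ≤ ENNReal.ofReal (dist z w) * (u z + u w)) ∧
    ∫⁻ z in ball (0 : ℂ) 1, u z ^ 2 ≤ ENNReal.ofReal C

/-- Bounded energy on one open set `U` of the boundary: for every finite set `H` of group elements
there is a parametrisation `ψ` of a neighbourhood of `U` by the unit disc such that the maps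
`h ∘ ψ`, `h ∈ H`, have energy at most `C`; the constant `C` does not depend on `H`. -/
def BoundedEnergy (G : Type) [Group G] (τ : G → Sph → Sph) : Prop :=
  ∃ (ϱ : Sph → Sph → ℝ) (U : Set Sph) (C : ℝ), IsMetric ϱ ∧ IsOpen U ∧ U.Nonempty ∧
    ∀ H : Finset G, ∃ ψ : ℂ → Sph, ContinuousOn ψ (ball 0 1) ∧ InjOn ψ (ball 0 1) ∧
      U ⊆ ψ '' ball 0 (1 / 2) ∧ ∀ h ∈ H, EnergyLE ϱ C (fun z => τ h (ψ z))

/-- 1: a continuous curve with a Hajlasz gradient `u` has length at most `20 ∫ u` between its end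
points. -/
def S_LINE : Prop :=
  ∀ (ϱ : Sph → Sph → ℝ), IsMetric ϱ → ∀ (f : ℝ → Sph) (u : ℝ → ℝ≥0∞) (a b : ℝ), a < b →
    Measurable u → ContinuousOn f (Icc a b) →
    (∀ s ∈ Icc a b, ∀ t ∈ Icc a b,
      ENNReal.ofReal (ϱ (f s) (f t)) ≤ ENNReal.ofReal |s - t| * (u s + u t)) →
    ENNReal.ofReal (ϱ (f a) (f b)) ≤ 20 * ∫⁻ t in Icc a b, u t

/-- 2: Courant-Lebesgue: a map of bounded energy is almost constant on some circle of a fat ring. -/
def S_CL : Prop :=
  ∀ (ϱ : Sph → Sph → ℝ), IsMetric ϱ → ∀ (C δ : ℝ), 0 < C → 0 < δ → ∀ F : ℂ → Sph,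
    ContinuousOn F (ball 0 1) → EnergyLE ϱ C F → ∀ (A : ℂ) (s ρ : ℝ), 0 < s → s < ρ →
    ball A ρ ⊆ ball 0 1 → 10000 * C < δ ^ 2 * Real.log (ρ / s) →
    ∃ r, s < r ∧ r < ρ ∧ ∀ z ∈ sphere A r, ∀ w ∈ sphere A r, ϱ (F z) (F w) < δ

/-- 3: four points with big cross ratio are separated by a fat ring. -/
def S_RING : Prop :=
  ∀ (A B C E : ℂ) (T : ℝ), 1 ≤ T → A ≠ C → B ≠ E →
    16 * T ^ 2 * (dist A C * dist B E) ≤ dist A B * dist C E →
    (T * dist A C ≤ dist A B ∧ T * dist A C ≤ dist A E) ∨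
      (T * dist B E ≤ dist B A ∧ T * dist B E ≤ dist B C)

/-- 4: a Jordan curve of small diameter bounds a set of small diameter on one side. -/
def S_JOR : Prop :=
  ∀ F : ℂ → Sph, ContinuousOn F (ball 0 1) → InjOn F (ball 0 1) → ∀ (A : ℂ) (r d : ℝ),
    0 < r → 0 < d → closedBall A r ⊆ ball 0 1 →
    (∀ z ∈ sphere A r, ∀ w ∈ sphere A r, dist (F z) (F w) ≤ d) →
    (∀ z ∈ ball A r, ∀ w ∈ ball A r, dist (F z) (F w) ≤ 2 * d) ∨
      ∀ z ∈ ball (0 : ℂ) 1 \ closedBall A r, ∀ w ∈ ball (0 : ℂ) 1 \ closedBall A r,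
        dist (F z) (F w) ≤ 2 * d

/-- 4a: continuous injective maps of planar discs to the sphere are open. -/
def S_OPEN : Prop :=
  ∀ F : ℂ → Sph, ContinuousOn F (ball 0 1) → InjOn F (ball 0 1) → ∀ (A : ℂ) (r : ℝ),
    ball A r ⊆ ball 0 1 → IsOpen (F '' ball A r)

/-- 4b: the complement of a closed cap is connected. -/
def S_CAP : Prop := ∀ (p : Sph) (d : ℝ), IsPreconnected {x : Sph | d < dist p x}

end Pool.Agent.Y489.EN
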