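import Pool.Agent.Y489.EN.Key2
import Pool.Agent.Y320.ST.Fin

set_option autoImplicit false
open Filter Topology MeasureTheory Metric Set

namespace Pool.Agent.Y489.EN
open Pool.Agent.Y320.CM Pool.Agent.Y320.ST

/-- finitely many group elements do not bring separated points too close -/
theorem sep_ctrl {G : Type} [Group G] {τ : G → Sph → Sph} (hA : Act G τ) (K : Finset G) (ε : ℝ)
    (hε : 0 < ε) : ∃ ε' : ℝ, 0 < ε' ∧ ∀ f ∈ K, ∀ x y : Sph, ε ≤ dist x y →
      ε' ≤ dist (τ f x) (τ f y) := by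
  classical
  induction K using Finset.induction_on with
  | empty => exact ⟨1, one_pos, fun f hf => absurd hf (Finset.notMem_empty f)⟩
  | insert g K hg ih =>
    obtain ⟨ε', hε', h⟩ := ih
    have hm : IsMetric (fun x y => dist (τ g x) (τ g y)) :=
      { cont := ((hA.cont g).comp continuous_fst).dist ((hA.cont g).comp continuous_snd)
        self := fun x => dist_self _
        pos := fun x y hxy => dist_pos.2 fun e => hxy (tau_inj hA g e)
        symm := fun x y => dist_comm _ _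
        tri := fun x y z => dist_triangle _ _ _ }
    obtain ⟨η, hη, h2⟩ := metric_ctrl _ hm ε hε
    refine ⟨min ε' η, lt_min hε' hη, fun f hf x y hxy => ?_⟩
    rcases Finset.mem_insert.1 hf with rfl | hf
    · refine (min_le_right _ _).trans ?_
      by_contra hc
      push Not at hc
      have := h2 x y hc
      linarith
    · exact (min_le_left _ _).trans (h f hf x y hxy)

/-- sublinear ring energies on one open set bound the finite configurations -/
theorem finB_of_ring (hCL : S_CLR) (hJ : S_JOR) (hST : S_STB) {G : Type} [Group G]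
    {τ : G → Sph → Sph} (hA : Act G τ) (h : SublinearEnergy G τ) :
    ∃ (U : Set Sph) (N : ℝ → ℝ), IsOpen U ∧ U.Nonempty ∧ FinB τ U N := by
  obtain ⟨ϱ, U, K, ω, hϱ, hU, hne, hω, hH⟩ := h
  obtain ⟨st1, -, -, -, -, -, -, -, hcr⟩ := hST
  have hN : ∀ ε : ℝ, ∃ N : ℝ, 0 < ε → ∀ (k : ℂ → Sph), ContinuousOn k (ball 0 1) →
      InjOn k (ball 0 1) → ∀ f ∈ K, RingEnergy ϱ ω (fun z => τ f (k z)) → ∀ A B D E : ℂ,
      A ∈ ball (0 : ℂ) (1 / 2) → B ∈ ball (0 : ℂ) (1 / 2) → D ∈ ball (0 : ℂ) (1 / 2) →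
      E ∈ ball (0 : ℂ) (1 / 2) → ε ≤ dist (k A) (k D) → ε ≤ dist (k B) (k E) →
      dist A B * dist D E / (dist A D * dist B E) ≤ N := by
    intro ε
    by_cases hε : 0 < ε
    swap
    · exact ⟨0, fun h => absurd h hε⟩
    obtain ⟨ε', hε', hsep⟩ := sep_ctrl hA K ε hε
    obtain ⟨N, hN⟩ := key2 hCL hJ ϱ hϱ ω hω ε' hε'
    refine ⟨N, fun _ k hk hi f hf hR A B D E hA' hB hD hE s1 s2 => ?_⟩
    refine hN (fun z => τ f (k z)) ((hA.cont f).comp_continuousOn hk) ?_ hR A B D E hA' hB hD hE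
      (hsep f hf _ _ s1) (hsep f hf _ _ s2)
    intro x hx y hy hxy
    exact hi hx hy (tau_inj hA f hxy)
  choose N hN using hN
  refine ⟨U, N, hU, hne, ?_⟩
  intro P hP H δ hδ
  obtain ⟨ψ, hψc, hψi, hψU, hψE⟩ := hH H
  have hz : ∀ a : Sph, ∃ z : ℂ, a ∈ U → z ∈ ball (0 : ℂ) (1 / 2) ∧ ψ z = a := by
    intro a
    by_cases ha : a ∈ U
    · obtain ⟨z, hz1, hz2⟩ := hψU ha
      exact ⟨z, fun _ => ⟨hz1, hz2⟩⟩
    · exact ⟨0, fun h => absurd h ha⟩
  choose z hz using hz
  refine ⟨fun a => sg (z a), ?_, ?_⟩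
  · intro a ha b hb hab
    have h1 : z a = z b := by
      have := congrArg st hab
      simp only at this
      rwa [st1, st1] at this
    rw [← (hz a (hP ha)).2, ← (hz b (hP hb)).2, h1]
  · intro g hg ε hε a ha b hb c hc e he s1 s2 s3 s4 s5 s6
    have hε0 : 0 < ε := hδ.trans_le hε
    simp only
    rw [hcr]
    have hk1 : ContinuousOn (fun w => τ g (ψ w)) (ball 0 1) := (hA.cont g).comp_continuousOn hψc
    have hk2 : InjOn (fun w => τ g (ψ w)) (ball 0 1) := by
      intro x hx y hy hxy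
      exact hψi hx hy (tau_inj hA g hxy)
    obtain ⟨za, ea⟩ := hz a (hP ha)
    obtain ⟨zb, eb⟩ := hz b (hP hb)
    obtain ⟨zc, ec⟩ := hz c (hP hc)
    obtain ⟨ze, ee⟩ := hz e (hP he)
    obtain ⟨f, hf, hR⟩ := hψE g hg
    refine hN ε hε0 (fun w => τ g (ψ w)) hk1 hk2 f hf ?_ (z a) (z b) (z c) (z e) za zb zc ze
      ?_ ?_
    · have e1 : (fun w => τ f (τ g (ψ w))) = fun w => τ (f * g) (ψ w) :=
        funext fun w => (hA.mul f g (ψ w)).symm
      rw [e1]
      exact hR
    · simp only [ea, ec]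
      exact s2
    · simp only [eb, ee]
      exact s5

end Pool.Agent.Y489.EN
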