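import Pool.Agent.Y489.EN.Stm3
import Pool.Agent.Y489.EN.Fin2

set_option autoImplicit false
open Filter Topology MeasureTheory Metric Set
open scoped ENNReal

namespace Pool.Agent.Y489.EN
open Pool.Agent.Y320.CM Pool.Agent.Y320.ST

theorem sublinear_of_uniform {G : Type} [Group G] {τ : G → Sph → Sph} {C : ℝ}
    (h : UniformEnergy G τ C) : SublinearEnergy G τ := by
  obtain ⟨ϱ, U, ψ, h1, h2, h3, h4, h5, h6, h7⟩ := h
  refine ⟨ϱ, U, {1}, fun _ => C, h1, h2, h3, ?_, fun H => ⟨ψ, h4, h5, h6, ?_⟩⟩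
  · intro κ hκ
    refine ⟨max C 1 / κ, by positivity, ?_⟩
    have : κ * (max C 1 / κ) = max C 1 := by field_simp
    rw [this]
    exact le_max_left _ _
  · intro g _
    refine ⟨1, Finset.mem_singleton_self _, ?_⟩
    obtain ⟨u, hu, e1, e2⟩ := h7 g
    refine ⟨u, hu, ?_, ?_⟩
    · simpa only [one_mul] using e1
    · intro A s ρ _ _ hb
      exact (lintegral_mono_set (sdiff_subset.trans hb)).trans e2

theorem coord_of_conj {G : Type} [Group G] {τ : G → Sph → Sph} (F : Sph → Sph)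
    (hFc : Continuous F) (hFi : Function.Injective F) (hF : Inv G τ F) :
    Coord G τ Set.univ (⊤ : Filter Unit) (fun _ => F) := by
  refine ⟨fun a b c e _ _ _ _ hD => ?_, fun g a b c e _ _ _ _ hD _ _ _ _ => ?_⟩
  · have hD' : D4 (F a) (F b) (F c) (F e) := D4_inj hD F hFi
    have hpos := cr_pos hD'
    have hc : Tendsto (fun q : Sph × Sph × Sph × Sph => cr (F q.1) (F q.2.1) (F q.2.2.1) (F q.2.2.2))
        (𝓝 (a, b, c, e)) (𝓝 (cr (F a) (F b) (F c) (F e))) := by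
      apply cr_tendsto (a := F a) (b := F b) (c := F c) (e := F e)
      all_goals first
        | exact hD'
        | exact Continuous.tendsto (by fun_prop) (a, b, c, e)
    set x := cr (F a) (F b) (F c) (F e) with hx
    refine ⟨max (2 * x) (2 / x), lt_of_lt_of_le (by positivity) (le_max_left _ _), ?_⟩
    have h1 := hc.eventually (lt_mem_nhds (show x / 2 < x by linarith))
    have h2 := hc.eventually (gt_mem_nhds (show x < 2 * x by linarith))
    filter_upwards [h1, h2] with q q1 q2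
    refine Eventually.of_forall fun _ => ⟨?_, q2.le.trans (le_max_left _ _)⟩
    have h3 : (max (2 * x) (2 / x))⁻¹ ≤ (2 / x)⁻¹ :=
      inv_anti₀ (by positivity) (le_max_right _ _)
    have h4 : (2 / x)⁻¹ = x / 2 := by rw [inv_div]
    rw [h4] at h3
    exact h3.trans q1.le
  · have hD' : D4 (F a) (F b) (F c) (F e) := D4_inj hD F hFi
    have hpos := cr_pos hD'
    have h1 : cr (F (τ g a)) (F (τ g b)) (F (τ g c)) (F (τ g e)) /
        cr (F a) (F b) (F c) (F e) = 1 := by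
      rw [hF g a b c e hD, div_self hpos.ne']
    show Tendsto (fun _ : Unit => cr (F (τ g a)) (F (τ g b)) (F (τ g c)) (F (τ g e)) /
        cr (F a) (F b) (F c) (F e)) (⊤ : Filter Unit) (𝓝 (1 : ℝ))
    rw [h1]
    exact tendsto_const_nhds

/-- the energy of a Moebius map -/
theorem energy_of_rep (hPI : S_PI) (hST : S_STB) {G : Type} [Group G] {τ : G → Sph → Sph}
    (F : Sph → Sph) (ρ : G →* Matrix (Fin 4) (Fin 4) ℝ) (s : G → Sph → ℝ)
    (h2 : ∀ g a, Matrix.mulVec (ρ g) (N (F a)) = s g a • N (F (τ g a)))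
    (h3 : ∀ g v w, B (Matrix.mulVec (ρ g) v) (Matrix.mulVec (ρ g) w) = B v w)
    (hH : ∀ g : G, ∀ v ∈ Hyp, Matrix.mulVec (ρ g) v ∈ Hyp)
    (ψ : ℂ → Sph) (hψ : ∀ z, F (ψ z) = sg z) (g : G) :
    EnergyLE (fun x y => dist (F x) (F y)) Real.pi (fun z => τ g (ψ z)) := by
  obtain ⟨-, -, -, -, -, hsd, -⟩ := hST
  set e0 : V := ![1, 0, 0, 0] with he0
  have he0H : e0 ∈ Hyp := by
    constructor
    · simp [he0]
    · simp [he0]
  set v : V := Matrix.mulVec (ρ g⁻¹) e0 with hv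
  have hvH : v ∈ Hyp := hH g⁻¹ e0 he0H
  have hgv : Matrix.mulVec (ρ g) v = e0 := by
    rw [hv, Matrix.mulVec_mulVec, ← map_mul, mul_inv_cancel, map_one, Matrix.one_mulVec]
  have hs : ∀ a, s g a = -B v (N (F a)) := by
    intro a
    have e1 := h3 g v (N (F a))
    rw [hgv, h2 g a, B_smul_right] at e1
    rw [← e1]
    have e2 : B e0 (N (F (τ g a))) = -1 := by
      simp [B, he0, N]
    rw [e2]
    ring
  obtain ⟨hv0, hvq⟩ := hvH
  have hA : 0 < v 0 + v 3 := by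
    nlinarith [sq_nonneg (v 1), sq_nonneg (v 2), sq_nonneg (v 0 + v 3), sq_nonneg (v 0 - v 3)]
  set A : ℝ := v 0 + v 3 with hAdef
  set c : ℂ := ⟨v 1 / A, v 2 / A⟩ with hc
  have hq : ∀ z : ℂ, (1 + ‖z‖ ^ 2) * s g (ψ z) = A * ‖z - c‖ ^ 2 + 1 / A := by
    intro z
    rw [hs, hψ]
    have hn : ‖z‖ ^ 2 = z.re ^ 2 + z.im ^ 2 := by
      rw [← Complex.normSq_eq_norm_sq, Complex.normSq_apply]; ring
    have hn' : ‖z - c‖ ^ 2 = (z.re - v 1 / A) ^ 2 + (z.im - v 2 / A) ^ 2 := by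
      rw [← Complex.normSq_eq_norm_sq, Complex.normSq_apply, Complex.sub_re, Complex.sub_im]; ring
    have hp : 0 < 1 + ‖z‖ ^ 2 := by positivity
    have hB : B v (N (sg z)) = -(v 0) + v 1 * (2 * z.re / (1 + ‖z‖ ^ 2)) +
        v 2 * (2 * z.im / (1 + ‖z‖ ^ 2)) + v 3 * ((1 - ‖z‖ ^ 2) / (1 + ‖z‖ ^ 2)) := by
      simp [B, N, sg]
    rw [hB, hn']
    have hAne : A ≠ 0 := hA.ne'
    have hpne : 1 + ‖z‖ ^ 2 ≠ 0 := hp.ne'
    have h0 : (v 0) ^ 2 = 1 + (v 1) ^ 2 + (v 2) ^ 2 + (v 3) ^ 2 := by linarith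
    have e1 : (1 + ‖z‖ ^ 2) * -(-(v 0) + v 1 * (2 * z.re / (1 + ‖z‖ ^ 2)) +
        v 2 * (2 * z.im / (1 + ‖z‖ ^ 2)) + v 3 * ((1 - ‖z‖ ^ 2) / (1 + ‖z‖ ^ 2))) =
        v 0 * (1 + ‖z‖ ^ 2) - 2 * v 1 * z.re - 2 * v 2 * z.im - v 3 * (1 - ‖z‖ ^ 2) := by
      field_simp
      ring
    rw [e1, hn]
    have e2 : A * ((z.re - v 1 / A) ^ 2 + (z.im - v 2 / A) ^ 2) + 1 / A =
        A * (z.re ^ 2 + z.im ^ 2) - 2 * v 1 * z.re - 2 * v 2 * z.im +
          (1 + (v 1) ^ 2 + (v 2) ^ 2) / A := by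
      field_simp
      ring
    have e3 : (1 + (v 1) ^ 2 + (v 2) ^ 2) / A = v 0 - v 3 := by
      rw [div_eq_iff hAne, hAdef]
      nlinarith
    rw [e2, e3, hAdef]
    ring
  have hqpos : ∀ z : ℂ, 0 < A * ‖z - c‖ ^ 2 + 1 / A := fun z => by positivity
  have hdist : ∀ a b, dist (F (τ g a)) (F (τ g b)) ^ 2 * (s g a * s g b) =
      dist (F a) (F b) ^ 2 := by
    intro a b
    have e1 := h3 g (N (F a)) (N (F b))
    rw [h2, h2, B_smul_left, B_smul_right, BN, BN] at e1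
    linarith
  refine ⟨fun z => ENNReal.ofReal (1 / (A * ‖z - c‖ ^ 2 + 1 / A)), by fun_prop, ?_, ?_⟩
  · intro z _ w _
    have hz := hqpos z
    have hw := hqpos w
    rw [← ENNReal.ofReal_add (by positivity) (by positivity), ← ENNReal.ofReal_mul dist_nonneg]
    apply ENNReal.ofReal_le_ofReal
    set qz := A * ‖z - c‖ ^ 2 + 1 / A with hqz
    set qw := A * ‖w - c‖ ^ 2 + 1 / A with hqw
    have e1 := hdist (ψ z) (ψ w)
    rw [hψ, hψ, hsd z w] at e1
    have pz : 0 < 1 + ‖z‖ ^ 2 := by positivity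
    have pw : 0 < 1 + ‖w‖ ^ 2 := by positivity
    have e2 : (2 * dist z w / √((1 + ‖z‖ ^ 2) * (1 + ‖w‖ ^ 2))) ^ 2 =
        4 * dist z w ^ 2 / ((1 + ‖z‖ ^ 2) * (1 + ‖w‖ ^ 2)) := by
      rw [div_pow, Real.sq_sqrt (by positivity)]
      ring
    rw [e2, eq_div_iff (by positivity)] at e1
    have e3 : dist (F (τ g (ψ z))) (F (τ g (ψ w))) ^ 2 * (qz * qw) = 4 * dist z w ^ 2 := by
      rw [hqz, hqw, ← hq z, ← hq w, ← e1]
      ring
    have hx : 0 ≤ dist (F (τ g (ψ z))) (F (τ g (ψ w))) := dist_nonneg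
    have hy : 0 ≤ dist z w := dist_nonneg
    show dist (F (τ g (ψ z))) (F (τ g (ψ w))) ≤ dist z w * (1 / qz + 1 / qw)
    rw [← abs_of_nonneg hx, ← abs_of_nonneg (show 0 ≤ dist z w * (1 / qz + 1 / qw) by positivity)]
    apply sq_le_sq.1
    have e4 : dist (F (τ g (ψ z))) (F (τ g (ψ w))) ^ 2 = 4 * dist z w ^ 2 / (qz * qw) := by
      rw [eq_div_iff (by positivity)]
      exact e3
    rw [e4, div_le_iff₀ (by positivity)]
    have e5 : (dist z w * (1 / qz + 1 / qw)) ^ 2 * (qz * qw) =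
        dist z w ^ 2 * ((qz + qw) ^ 2 / (qz * qw)) := by
      field_simp
      ring
    rw [e5]
    have e6 : 4 ≤ (qz + qw) ^ 2 / (qz * qw) := by
      rw [le_div_iff₀ (by positivity)]
      nlinarith [sq_nonneg (qz - qw)]
    nlinarith [sq_nonneg (dist z w)]
  · exact (lintegral_mono' Measure.restrict_le_self le_rfl).trans (hPI A c hA)

theorem uniform_of_conj (hPI : S_PI) (hST : S_STB) (hO : S_OPEN) {G : Type} [Group G]
    {τ : G → Sph → Sph} (hA : Act G τ) (h : ConjugateToMoebius G τ) :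
    UniformEnergy G τ Real.pi := by
  obtain ⟨F0, hF0c, hF0b, hF0⟩ := h
  obtain ⟨F, ρ, s, hc, hb, -, h1, h2, h3⟩ := rep_of_coord hA Set.univ isOpen_univ
    ⟨Pool.Agent.Y320.ST.inf, trivial⟩ (⊤ : Filter Unit) (fun _ => F0)
    (coord_of_conj F0 hF0c hF0b.1 hF0)
  obtain ⟨hH, -⟩ := Pool.Agent.Y638.CM.t_REPB G τ hA F hc hb ρ s h1 h2 h3
  obtain ⟨E, hE⟩ := exists_homeo F hc hb.1
  have hsgc : Continuous sg := hST.2.2.2.1
  have hsgi : Function.Injective sg := fun z w h => by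
    rw [← hST.1 z, ← hST.1 w, h]
  set ψ : ℂ → Sph := fun z => E.symm (sg z) with hψ
  have hFψ : ∀ z, F (ψ z) = sg z := fun z => by
    rw [← hE, hψ]
    exact E.apply_symm_apply _
  have hop : IsOpen (sg '' ball (0 : ℂ) (1 / 2)) :=
    hO sg hsgc.continuousOn hsgi.injOn 0 (1 / 2) (ball_subset_ball (by norm_num))
  refine ⟨fun x y => dist (F x) (F y), E ⁻¹' (sg '' ball (0 : ℂ) (1 / 2)), ψ, ?_,
    hop.preimage E.continuous, ⟨E.symm (sg 0), ?_⟩, ?_, ?_, ?_, fun g => ?_⟩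
  · exact
      { cont := (hc.comp continuous_fst).dist (hc.comp continuous_snd)
        self := fun x => dist_self _
        pos := fun x y hxy => dist_pos.2 fun e => hxy (hb.1 e)
        symm := fun x y => dist_comm _ _
        tri := fun x y z => dist_triangle _ _ _ }
  · show E (E.symm (sg 0)) ∈ sg '' ball (0 : ℂ) (1 / 2)
    rw [E.apply_symm_apply]
    exact ⟨0, mem_ball_self (by norm_num), rfl⟩
  · exact (E.symm.continuous.comp hsgc).continuousOn
  · exact (E.symm.injective.comp hsgi).injOn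
  · rintro x ⟨z, hz, hx⟩
    refine ⟨z, hz, ?_⟩
    show E.symm (sg z) = x
    rw [hx, E.symm_apply_apply]
  · exact energy_of_rep hPI hST F ρ s h2 h3 hH ψ hFψ g

theorem conj_of_finB {G : Type} [Group G] {τ : G → Sph → Sph} (hA : Act G τ) (hC : Cvg τ)
    (U : Set Sph) (hU : IsOpen U) (hne : U.Nonempty) (N : ℝ → ℝ) (hN : FinB τ U N) :
    ConjugateToMoebius G τ := by
  obtain ⟨F, hc, hi, N', hG, hQ⟩ := qm_of_finB hA hC U hU hne N hN
  obtain ⟨E, hE⟩ := exists_homeo F hc hi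
  have hA' := Pool.Agent.Y708.ST.t_TRANS G τ hA E
  obtain ⟨l, ψ, hl, hψ⟩ := sullivanTukia G (fun g x => E (τ g (E.symm x))) hA' N' hG (by
    intro g a b c e hD t ht
    have hD' : D4 (E.symm a) (E.symm b) (E.symm c) (E.symm e) :=
      D4_inj hD E.symm E.symm.injective
    have := hQ g _ _ _ _ hD' t (by
      rw [← hE, ← hE, ← hE, ← hE]
      simpa only [Homeomorph.apply_symm_apply] using ht)
    simpa only [← hE] using this)
  obtain ⟨F', ρ, s, hc', hb', hI', -⟩ := rep_of_coord hA' Set.univ isOpen_univ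
    ⟨Pool.Agent.Y320.ST.inf, trivial⟩ l ψ hψ
  refine ⟨fun x => F' (E x), hc'.comp E.continuous, hb'.comp E.bijective,
    fun g a b c e hD => ?_⟩
  have := hI' g (E a) (E b) (E c) (E e) (D4_inj hD E E.injective)
  simp only [Homeomorph.symm_apply_apply] at this
  exact this

/-- sublinear ring energies, energies at most `π` in one chart, and conjugacy to a Moebius action
are equivalent -/
theorem tfae (hPI : S_PI) (hST : S_STB) (hO : S_OPEN) (hCL : S_CLR) (hJ : S_JOR) {G : Type}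
    [Group G] {τ : G → Sph → Sph} (hA : Act G τ) (hC : Cvg τ) :
    (SublinearEnergy G τ ↔ UniformEnergy G τ Real.pi) ∧
      (SublinearEnergy G τ ↔ ConjugateToMoebius G τ) := by
  have h1 : SublinearEnergy G τ → ConjugateToMoebius G τ := by
    intro h
    obtain ⟨U, N, hU, hne, hN⟩ := finB_of_ring hCL hJ hST hA h
    exact conj_of_finB hA hC U hU hne N hN
  have h2 : ConjugateToMoebius G τ → UniformEnergy G τ Real.pi := uniform_of_conj hPI hST hO hA
  exact ⟨⟨fun h => h2 (h1 h), sublinear_of_uniform⟩,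
    ⟨h1, fun h => sublinear_of_uniform (h2 h)⟩⟩

end Pool.Agent.Y489.EN
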