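import Pool.Agent.Y489.EN.Stm

/-!
# Hyperbolic groups with sphere boundary and sublinear ring energies: definitions
-/

set_option autoImplicit false
open Filter Topology MeasureTheory Metric Set
open scoped ENNReal

namespace Pool.Agent.Y489.EN
open Pool.Agent.Y320.CM

/-- The map `F` of the planar unit disc to the sphere with the metric `ϱ` has ring energies
controlled by `ω`: it has a Hajlasz gradient `u`, that is `ϱ (F z) (F w) ≤ |z - w| (u z + u w)` on
the disc, such that the integral of `u ^ 2` (the Dirichlet energy) over every ring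
`s < |z - A| < ρ`, where the ball of centre `A` and radius `ρ` lies in the disc, is at most
`ω (log (ρ / s))`. -/
def RingEnergy (ϱ : Sph → Sph → ℝ) (ω : ℝ → ℝ) (F : ℂ → Sph) : Prop :=
  ∃ u : ℂ → ℝ≥0∞, Measurable u ∧
    (∀ z ∈ ball (0 : ℂ) 1, ∀ w ∈ ball (0 : ℂ) 1,
      ENNReal.ofReal (ϱ (F z) (F w)) ≤ ENNReal.ofReal (dist z w) * (u z + u w)) ∧
    ∀ (A : ℂ) (s ρ : ℝ), 0 < s → s < ρ → ball A ρ ⊆ ball 0 1 →
      ∫⁻ z in ball A ρ \ closedBall A s, u z ^ 2 ≤ ENNReal.ofReal (ω (Real.log (ρ / s)))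

/-- Sublinear ring energies on one open set `U` of the boundary: there are a finite set `K` of group
elements and a function `ω` with `ω t / t` arbitrarily small such that for every finite set `H` of
group elements there is a parametrisation `ψ` of a neighbourhood of `U` by the unit disc for which
every `h` in `H` has a translate `f * h`, `f ∈ K`, with ring energies of `(f * h) ∘ ψ` controlled by
`ω`.  Example: `K = {1}`, `ω = C` constant, one `ψ` for all `H`: all elements of the group have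
Dirichlet energy at most `C` on a neighbourhood of `U`. -/
def SublinearEnergy (G : Type) [Group G] (τ : G → Sph → Sph) : Prop :=
  ∃ (ϱ : Sph → Sph → ℝ) (U : Set Sph) (K : Finset G) (ω : ℝ → ℝ),
    IsMetric ϱ ∧ IsOpen U ∧ U.Nonempty ∧ (∀ κ : ℝ, 0 < κ → ∃ t : ℝ, 0 < t ∧ ω t ≤ κ * t) ∧
    ∀ H : Finset G, ∃ ψ : ℂ → Sph, ContinuousOn ψ (ball 0 1) ∧ InjOn ψ (ball 0 1) ∧
      U ⊆ ψ '' ball 0 (1 / 2) ∧ ∀ h ∈ H, ∃ f ∈ K, RingEnergy ϱ ω (fun z => τ (f * h) (ψ z))

/-- Courant-Lebesgue lemma with the energy of the ring only -/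
def S_CLR : Prop :=
  ∀ (ϱ : Sph → Sph → ℝ), IsMetric ϱ → ∀ (C δ : ℝ), 0 < C → 0 < δ → ∀ F : ℂ → Sph,
    ContinuousOn F (ball 0 1) → ∀ u : ℂ → ℝ≥0∞, Measurable u →
    (∀ z ∈ ball (0 : ℂ) 1, ∀ w ∈ ball (0 : ℂ) 1,
      ENNReal.ofReal (ϱ (F z) (F w)) ≤ ENNReal.ofReal (dist z w) * (u z + u w)) →
    ∀ (A : ℂ) (s ρ : ℝ), 0 < s → s < ρ → ball A ρ ⊆ ball 0 1 →
    ∫⁻ z in ball A ρ \ closedBall A s, u z ^ 2 ≤ ENNReal.ofReal C →
    10000 * C < δ ^ 2 * Real.log (ρ / s) →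
    ∃ r, s < r ∧ r < ρ ∧ ∀ z ∈ sphere A r, ∀ w ∈ sphere A r, ϱ (F z) (F w) < δ

end Pool.Agent.Y489.EN
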