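import Pool.Agent.Y489.EN.Ring
import Pool.Agent.Y489.EN.Def2

set_option autoImplicit false
open Filter Topology MeasureTheory Metric Set

namespace Pool.Agent.Y489.EN
open Pool.Agent.Y320.CM

/-- no fat ring separates two pairs of points of the disc with separated images -/
theorem no_ring2 (hCL : S_CLR) (hJ : S_JOR) (ϱ : Sph → Sph → ℝ) (hϱ : IsMetric ϱ) (ω : ℝ → ℝ)
    (η ε t : ℝ) (hη : 0 < η) (hε : 0 < ε) (ht : 0 < t) (hω : ω t ≤ η ^ 2 / 20000 * t)
    (hctrl : ∀ x y : Sph, ϱ x y < η → dist x y < ε / 4)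
    (k : ℂ → Sph) (hk : ContinuousOn k (ball 0 1)) (hi : InjOn k (ball 0 1))
    (hE : RingEnergy ϱ ω k) (T : ℝ) (hT : T = 2 * Real.exp t)
    (A B D E : ℂ) (hA : A ∈ ball (0 : ℂ) (1 / 2)) (hB : B ∈ ball (0 : ℂ) (1 / 2))
    (hEm : E ∈ ball (0 : ℂ) (1 / 2)) (hAD : A ≠ D)
    (h1 : T * dist A D ≤ dist A B) (h2 : T * dist A D ≤ dist A E)
    (hs1 : ε ≤ dist (k A) (k D)) (hs2 : ε ≤ dist (k B) (k E)) : False := by
  have hs : 0 < dist A D := dist_pos.2 hAD
  rw [mem_ball, dist_zero_right] at hA hB hEm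
  have hx : 1 < Real.exp t := by
    rwa [Real.one_lt_exp_iff]
  have hTpos : 2 < T := by rw [hT]; linarith
  have hAB : dist A B < 1 := by
    have := dist_triangle A 0 B
    rw [dist_zero_right, dist_zero_left] at this
    linarith
  set s := dist A D with hsdef
  have hη2 : 0 < η ^ 2 := by positivity
  have hlog : Real.log (T * s / 2 / s) = t := by
    have e1 : T * s / 2 / s = Real.exp t := by
      rw [hT]
      field_simp
    rw [e1, Real.log_exp]
  have hsub : ∀ t : ℝ, t ≤ 1 / 2 → ∀ z : ℂ, dist z A < t ∨ dist z A ≤ t → z ∈ ball (0 : ℂ) 1 := by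
    intro t ht z hz
    have hz' : dist z A ≤ t := hz.elim le_of_lt id
    rw [mem_ball]
    have := dist_triangle z A 0
    rw [dist_zero_right A] at this
    linarith
  obtain ⟨u, hu, hFu, hring⟩ := hE
  have hsρ : s < T * s / 2 := by nlinarith
  have hbρ : ball A (T * s / 2) ⊆ ball 0 1 :=
    fun z hz => hsub (T * s / 2) (by linarith) z (Or.inl hz)
  have hen := hring A s (T * s / 2) hs hsρ hbρ
  rw [hlog] at hen
  obtain ⟨r, hr1, hr2, hr3⟩ := hCL ϱ hϱ (η ^ 2 / 20000 * t) η (by positivity) hη k hk u hu hFu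
    A s (T * s / 2) hs hsρ hbρ (hen.trans (ENNReal.ofReal_le_ofReal hω)) (by
      rw [hlog]
      have : 0 < η ^ 2 * t := by positivity
      linarith)
  have hrle : r ≤ 1 / 2 := by linarith
  have hr0 : 0 < r := hs.trans hr1
  have hcb : closedBall A r ⊆ ball 0 1 := fun z hz => hsub r hrle z (Or.inr hz)
  have hTr : r < T * s := by
    have : T * s / 2 ≤ T * s := by nlinarith
    linarith
  rcases hJ k hk hi A r (ε / 4) hr0 (by linarith) hcb
    (fun z hz w hw => (hctrl _ _ (hr3 z hz w hw)).le) with h | h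
  · have := h A (mem_ball_self hr0) D (by rw [mem_ball, dist_comm]; exact hr1)
    linarith
  · have hout : ∀ X : ℂ, ‖X‖ < 1 / 2 → T * s ≤ dist A X → X ∈ ball (0 : ℂ) 1 \ closedBall A r := by
      intro X hX hd
      refine ⟨by rw [mem_ball, dist_zero_right]; linarith, ?_⟩
      rw [mem_closedBall, dist_comm]
      push Not
      linarith
    have := h B (hout B hB h1) E (hout E hEm h2)
    linarith

/-- sublinear ring energies bound the cross ratios of points with separated images -/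
theorem key2 (hCL : S_CLR) (hJ : S_JOR) (ϱ : Sph → Sph → ℝ) (hϱ : IsMetric ϱ) (ω : ℝ → ℝ)
    (hω : ∀ κ : ℝ, 0 < κ → ∃ t : ℝ, 0 < t ∧ ω t ≤ κ * t) (ε : ℝ) (hε : 0 < ε) :
    ∃ N : ℝ, ∀ (k : ℂ → Sph), ContinuousOn k (ball 0 1) →
      InjOn k (ball 0 1) → RingEnergy ϱ ω k → ∀ A B D E : ℂ, A ∈ ball (0 : ℂ) (1 / 2) →
      B ∈ ball (0 : ℂ) (1 / 2) → D ∈ ball (0 : ℂ) (1 / 2) → E ∈ ball (0 : ℂ) (1 / 2) →
      ε ≤ dist (k A) (k D) → ε ≤ dist (k B) (k E) →
      dist A B * dist D E / (dist A D * dist B E) ≤ N := by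
  obtain ⟨η, hη, hctrl⟩ := metric_ctrl ϱ hϱ (ε / 4) (by linarith)
  obtain ⟨t, ht, hωt⟩ := hω (η ^ 2 / 20000) (by positivity)
  set T := 2 * Real.exp t with hT
  have hT1 : 1 ≤ T := by
    have : 1 < Real.exp t := by
      rwa [Real.one_lt_exp_iff]
    rw [hT]
    linarith
  refine ⟨16 * T ^ 2, fun k hk hi hE A B D E hA hB hD hEm s1 s2 => ?_⟩
  have hAD : A ≠ D := by
    rintro rfl
    rw [dist_self] at s1
    linarith
  have hBE : B ≠ E := by
    rintro rfl
    rw [dist_self] at s2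
    linarith
  have pAD := dist_pos.2 hAD
  have pBE := dist_pos.2 hBE
  by_contra hcon
  push Not at hcon
  rw [lt_div_iff₀ (by positivity)] at hcon
  rcases t_RING A B D E T hT1 hAD hBE hcon.le with h | h
  · exact no_ring2 hCL hJ ϱ hϱ ω η ε t hη hε ht hωt hctrl k hk hi hE T hT A B D E hA hB hEm hAD
      h.1 h.2 s1 s2
  · exact no_ring2 hCL hJ ϱ hϱ ω η ε t hη hε ht hωt hctrl k hk hi hE T hT B A E D hB hA hD hBE
      h.1 h.2 s2 s1

end Pool.Agent.Y489.EN
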