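import Pool.Agent.Y489.EN.Stm

set_option autoImplicit false
open Filter Topology MeasureTheory Metric Set

namespace Pool.Agent.Y489.EN
open Pool.Agent.Y320.CM

/-- arithmetic of the ring lemma -/
theorem ring_arith (s δ β ε γ T : ℝ) (hT : 1 ≤ T) (hs : 0 < s) (hsδ : s ≤ δ)
    (hβ : 0 ≤ β) (hε : 0 ≤ ε) (hγ : 0 ≤ γ)
    (h1 : γ ≤ s + ε) (h2 : β ≤ ε + δ) (h3 : ε ≤ β + δ)
    (h : 16 * T ^ 2 * (s * δ) ≤ β * γ) : T * s ≤ β ∧ T * s ≤ ε := by
  have hδ : 0 < δ := hs.trans_le hsδ
  have hTs : s ≤ T * s := by nlinarith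
  have hTδ : δ ≤ T * δ := by nlinarith
  have hTsδ : T * s ≤ T * δ := by nlinarith
  have hpos : 0 < T ^ 2 * (s * δ) := by positivity
  constructor
  · by_contra hc
    push Not at hc
    have e1 : γ ≤ 4 * (T * δ) := by linarith
    have e2 : β * γ ≤ (T * s) * (4 * (T * δ)) :=
      mul_le_mul hc.le e1 hγ (by positivity)
    nlinarith
  · by_contra hc
    push Not at hc
    have e0 : β ≤ 2 * (T * δ) := by linarith
    have e1 : γ ≤ 2 * (T * s) := by linarith
    have e2 : β * γ ≤ (2 * (T * δ)) * (2 * (T * s)) :=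
      mul_le_mul e0 e1 hγ (by positivity)
    nlinarith

theorem t_RING : S_RING := by
  intro A B C E T hT hAC hBE h
  have pAC := dist_pos.2 hAC
  have pBE := dist_pos.2 hBE
  rcases le_total (dist A C) (dist B E) with hle | hle
  · left
    refine ring_arith (dist A C) (dist B E) (dist A B) (dist A E) (dist C E) T hT pAC hle
      dist_nonneg dist_nonneg dist_nonneg ?_ ?_ ?_ h
    · have := dist_triangle C A E
      rwa [dist_comm C A] at this
    · have := dist_triangle A E B
      rwa [dist_comm E B] at this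
    · exact dist_triangle A B E
  · right
    have := ring_arith (dist B E) (dist A C) (dist A B) (dist B C) (dist C E) T hT pBE hle
      dist_nonneg dist_nonneg dist_nonneg ?_ ?_ ?_ (by rw [mul_comm (dist B E)]; exact h)
    · rw [dist_comm A B] at this
      exact this
    · have := dist_triangle C B E
      rw [dist_comm C B] at this
      linarith
    · have := dist_triangle A C B
      rw [dist_comm C B] at this
      linarith
    · have := dist_triangle B A C
      rw [dist_comm B A] at this
      exact this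

/-- a continuous metric controls the chordal distance -/
theorem metric_ctrl (ϱ : Sph → Sph → ℝ) (h : IsMetric ϱ) (ε : ℝ) (hε : 0 < ε) :
    ∃ η : ℝ, 0 < η ∧ ∀ x y : Sph, ϱ x y < η → dist x y < ε := by
  have hK : IsCompact {q : Sph × Sph | ε ≤ dist q.1 q.2} :=
    (isClosed_le continuous_const (continuous_fst.dist continuous_snd)).isCompact
  rcases eq_empty_or_nonempty {q : Sph × Sph | ε ≤ dist q.1 q.2} with he | hne
  · refine ⟨1, one_pos, fun x y _ => ?_⟩
    by_contra hc
    push Not at hc
    have : (x, y) ∈ {q : Sph × Sph | ε ≤ dist q.1 q.2} := hc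
    rw [he] at this
    exact this
  · obtain ⟨q, hq, hmin⟩ := hK.exists_isMinOn hne h.cont.continuousOn
    have hq' : ε ≤ dist q.1 q.2 := hq
    refine ⟨ϱ q.1 q.2, h.pos _ _ fun e => ?_, fun x y hxy => ?_⟩
    · rw [e, dist_self] at hq'
      linarith
    · by_contra hc
      push Not at hc
      have hmem : (x, y) ∈ {q : Sph × Sph | ε ≤ dist q.1 q.2} := hc
      have h1 : ϱ q.1 q.2 ≤ ϱ x y := hmin hmem
      linarith

end Pool.Agent.Y489.EN
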