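import Pool.Agent.Y489.EN.Def2

/-!
# The converse: Moebius maps have energy at most π
-/

set_option autoImplicit false
open Filter Topology MeasureTheory Metric Set
open scoped ENNReal

namespace Pool.Agent.Y489.EN
open Pool.Agent.Y320.CM

/-- Uniformly bounded energy: in one chart `ψ` of an open set and for one metric of the boundary all
elements of the group have Dirichlet energy at most `C`. -/
def UniformEnergy (G : Type) [Group G] (τ : G → Sph → Sph) (C : ℝ) : Prop :=
  ∃ (ϱ : Sph → Sph → ℝ) (U : Set Sph) (ψ : ℂ → Sph), IsMetric ϱ ∧ IsOpen U ∧ U.Nonempty ∧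
    ContinuousOn ψ (ball 0 1) ∧ InjOn ψ (ball 0 1) ∧ U ⊆ ψ '' ball 0 (1 / 2) ∧
    ∀ g : G, EnergyLE ϱ C (fun z => τ g (ψ z))

/-- The action is conjugate to an action by Moebius maps: in the coordinate `F`, a homeomorphism
of the sphere (continuous and bijective), it preserves all cross ratios. -/
def ConjugateToMoebius (G : Type) [Group G] (τ : G → Sph → Sph) : Prop :=
  ∃ F : Sph → Sph, Continuous F ∧ Function.Bijective F ∧ Inv G τ F

/-- the integral of the square of the spherical derivative -/
def S_PI : Prop :=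
  ∀ (A : ℝ) (c : ℂ), 0 < A →
    ∫⁻ z : ℂ, ENNReal.ofReal (1 / (A * ‖z - c‖ ^ 2 + 1 / A)) ^ 2 ≤ ENNReal.ofReal Real.pi

end Pool.Agent.Y489.EN
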